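import Mathlib

/-!
Definitions (equistable, strongly equistable, weakly CIS graphs) and a graph on 22 vertices: the
complement of the line graph of the circulant graph `C_11(1,3)`.
-/

set_option autoImplicit false

namespace Pool.Agent.W121.Equi

open SimpleGraph

/-- `G` is equistable: there is a nonnegative weight function on the vertices such that a set of
vertices is a maximal stable set if and only if its total weight is `1`. -/
def Equistable {V : Type} (G : SimpleGraph V) : Prop :=
  ∃ φ : V → ℝ, (∀ v, 0 ≤ φ v) ∧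
    ∀ S : Finset V, Maximal G.IsIndepSet (S : Set V) ↔ ∑ v ∈ S, φ v = 1

/-- `G` is strongly equistable: for every nonempty set `T` of vertices that is not a maximal stable
set and every real `c ≤ 1` there is a nonnegative weight function giving every maximal stable set
total weight `1` and giving `T` a total weight different from `c`. -/
def StronglyEquistable {V : Type} (G : SimpleGraph V) : Prop :=
  ∀ T : Finset V, T.Nonempty → ¬ Maximal G.IsIndepSet (T : Set V) → ∀ c : ℝ, c ≤ 1 →
    ∃ φ : V → ℝ, (∀ v, 0 ≤ φ v) ∧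
      (∀ S : Finset V, Maximal G.IsIndepSet (S : Set V) → ∑ v ∈ S, φ v = 1) ∧
      ∑ v ∈ T, φ v ≠ c

/-- `G` is weakly CIS: there are a family `𝒞` of maximal cliques such that every two adjacent
vertices lie together in some member of `𝒞`, and a family `𝒮` of maximal stable sets such that every
two distinct non-adjacent vertices lie together in some member of `𝒮`, such that every member of `𝒞`
meets every member of `𝒮`. -/
def WeaklyCIS {V : Type} (G : SimpleGraph V) : Prop :=
  ∃ 𝒞 𝒮 : Set (Set V),
    (∀ C ∈ 𝒞, Maximal G.IsClique C) ∧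
    (∀ u v : V, G.Adj u v → ∃ C ∈ 𝒞, u ∈ C ∧ v ∈ C) ∧
    (∀ S ∈ 𝒮, Maximal G.IsIndepSet S) ∧
    (∀ u v : V, u ≠ v → ¬ G.Adj u v → ∃ S ∈ 𝒮, u ∈ S ∧ v ∈ S) ∧
    ∀ C ∈ 𝒞, ∀ S ∈ 𝒮, (C ∩ S).Nonempty

/-- first end of an edge of the circulant graph -/
def p (e : Fin 22) : Fin 11 := ⟨e.val % 11, Nat.mod_lt _ (by norm_num)⟩

/-- second end of an edge of the circulant graph -/
def q (e : Fin 22) : Fin 11 :=
  ⟨(if e.val < 11 then e.val + 1 else e.val + 3) % 11, Nat.mod_lt _ (by norm_num)⟩

/-- the edge `e` is incident with the vertex `v` -/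
def inc (e : Fin 22) (v : Fin 11) : Prop := p e = v ∨ q e = v

instance (e : Fin 22) (v : Fin 11) : Decidable (inc e v) := by unfold inc; infer_instance

/-- the star of `v` -/
def star (v : Fin 11) : Finset (Fin 22) := Finset.univ.filter fun e => inc e v

/-- the complement of the line graph -/
def G : SimpleGraph (Fin 22) where
  Adj e f := ¬ ∃ v, inc e v ∧ inc f v
  symm := ⟨fun _ _ h ⟨v, h1, h2⟩ => h ⟨v, h2, h1⟩⟩
  loopless := ⟨fun e h => h ⟨p e, Or.inl rfl, Or.inl rfl⟩⟩

theorem mem_star (e : Fin 22) (v : Fin 11) : e ∈ star v ↔ inc e v := by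
  simp [star]

theorem pq : ∀ e, p e ≠ q e := by decide +kernel

theorem helly : ∀ e f g : Fin 22, (∃ v, inc e v ∧ inc f v) → (∃ v, inc e v ∧ inc g v) →
    (∃ v, inc f v ∧ inc g v) → ∃ v, inc e v ∧ inc f v ∧ inc g v := by decide +kernel

theorem star_inj : ∀ v w : Fin 11, (∀ e, inc e v → inc e w) → v = w := by decide +kernel

theorem one_common : ∀ e f : Fin 22, e ≠ f → ∀ v w, inc e v → inc f v → inc e w → inc f w →
    v = w := by decide +kernel

theorem star_two : ∀ v : Fin 11, ∃ e f, e ≠ f ∧ inc e v ∧ inc f v := by decide +kernel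

theorem indep_iff (S : Set (Fin 22)) :
    G.IsIndepSet S ↔ ∀ e ∈ S, ∀ f ∈ S, ∃ v, inc e v ∧ inc f v := by
  constructor
  · intro h e he f hf
    by_cases hef : e = f
    · subst hef
      exact ⟨p e, Or.inl rfl, Or.inl rfl⟩
    · have := h he hf hef
      simpa [G] using this
  · intro h e he f hf _ hadj
    exact hadj (h e he f hf)

theorem indep_sub_star (S : Set (Fin 22)) (hS : G.IsIndepSet S) :
    ∃ v, ∀ e ∈ S, inc e v := by
  rw [indep_iff] at hS
  by_cases hne : S.Nonempty
  · obtain ⟨e, he⟩ := hne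
    by_cases h1 : ∀ f ∈ S, inc f (p e)
    · exact ⟨_, h1⟩
    by_cases h2 : ∀ f ∈ S, inc f (q e)
    · exact ⟨_, h2⟩
    push Not at h1 h2
    obtain ⟨f, hf, hfp⟩ := h1
    obtain ⟨g, hg, hgq⟩ := h2
    obtain ⟨v, hev, hfv, hgv⟩ := helly e f g (hS e he f hf) (hS e he g hg) (hS f hf g hg)
    rcases hev with h | h
    · exact absurd (h ▸ hfv) hfp
    · exact absurd (h ▸ hgv) hgq
  · refine ⟨0, fun e he => absurd ⟨e, he⟩ hne⟩

theorem star_indep (v : Fin 11) : G.IsIndepSet (star v : Set (Fin 22)) := by
  rw [indep_iff]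
  intro e he f hf
  exact ⟨v, (mem_star e v).1 he, (mem_star f v).1 hf⟩

theorem star_maximal (v : Fin 11) : Maximal G.IsIndepSet (star v : Set (Fin 22)) := by
  refine ⟨star_indep v, fun T hT hle => ?_⟩
  obtain ⟨w, hw⟩ := indep_sub_star T hT
  have hvw : v = w := star_inj v w fun e he => hw e (hle ((mem_star e v).2 he))
  subst hvw
  intro e he
  exact (mem_star e v).2 (hw e he)

theorem maximal_iff (S : Set (Fin 22)) :
    Maximal G.IsIndepSet S ↔ ∃ v, S = (star v : Set (Fin 22)) := by
  constructor
  · intro h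
    obtain ⟨v, hv⟩ := indep_sub_star S h.1
    have hle : S ≤ (star v : Set (Fin 22)) := fun e he => (mem_star e v).2 (hv e he)
    exact ⟨v, le_antisymm hle (h.2 (star_indep v) hle)⟩
  · rintro ⟨v, rfl⟩
    exact star_maximal v

theorem maximal_iff' (S : Finset (Fin 22)) :
    Maximal G.IsIndepSet (S : Set (Fin 22)) ↔ ∃ v, S = star v := by
  rw [maximal_iff]
  simp only [Finset.coe_inj]

/-- positive part of the `i`-th perturbation -/
def cP (i : Fin 11) (e : Fin 22) : ℕ :=
  if e.val = i.val ∨ e.val = (i.val + 3) % 11 then 1 else 0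

/-- negative part of the `i`-th perturbation -/
def cN (i : Fin 11) (e : Fin 22) : ℕ :=
  if e.val = i.val + 11 ∨ e.val = (i.val + 1) % 11 + 11 then 1 else 0

theorem c_star : ∀ i v, ∑ e ∈ star v, cP i e = ∑ e ∈ star v, cN i e := by decide +kernel

/-- number of subsets of a list of numbers with `k` elements and sum `s` -/
def cnt : List ℕ → ℕ → ℕ → ℕ
  | [], 0, 0 => 1
  | [], 0, _ + 1 => 0
  | [], _ + 1, _ => 0
  | _ :: l, 0, s => cnt l 0 s
  | x :: l, k + 1, s => cnt l (k + 1) s + if x ≤ s then cnt l k (s - x) else 0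

theorem cnt_eq {α : Type} [DecidableEq α] (g : α → ℕ) (l : List α) (hl : l.Nodup) (k s : ℕ) :
    ((l.toFinset.powersetCard k).filter fun T => ∑ e ∈ T, g e = s).card = cnt (l.map g) k s := by
  induction l generalizing k s with
  | nil =>
    cases k with
    | zero =>
      cases s with
      | zero =>
        simp [cnt, Finset.filter_singleton]
      | succ s => simp [cnt, Finset.filter_singleton]
    | succ k =>
      have : (List.toFinset ([] : List α)).powersetCard (k + 1) = ∅ := by
        apply Finset.powersetCard_eq_empty.2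
        simp
      rw [this]
      simp [cnt]
  | cons a l ih =>
    have ha : a ∉ l.toFinset := by
      simpa using (List.nodup_cons.1 hl).1
    have hl' := (List.nodup_cons.1 hl).2
    cases k with
    | zero =>
      have h1 := ih hl' 0 s
      simp only [Finset.powersetCard_zero] at h1 ⊢
      rw [h1]
      simp [cnt]
    | succ k =>
      rw [List.toFinset_cons, Finset.powersetCard_succ_insert ha, Finset.filter_union,
        Finset.card_union_of_disjoint, ih hl' (k + 1) s]
      · simp only [List.map_cons, cnt]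
        congr 1
        rw [Finset.filter_image, Finset.card_image_of_injOn]
        · split_ifs with hxs
          · rw [← ih hl' k (s - g a)]
            congr 1
            apply Finset.filter_congr
            intro T hT
            have haT : a ∉ T := fun h => ha ((Finset.mem_powersetCard.1 hT).1 h)
            rw [Finset.sum_insert haT]
            omega
          · rw [Finset.card_eq_zero, Finset.filter_eq_empty_iff]
            intro T hT
            have haT : a ∉ T := fun h => ha ((Finset.mem_powersetCard.1 hT).1 h)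
            rw [Finset.sum_insert haT]
            omega
        · intro T hT T' hT' h
          have h1 : a ∉ T := fun h =>
            ha ((Finset.mem_powersetCard.1 (Finset.mem_filter.1 hT).1).1 h)
          have h2 : a ∉ T' := fun h =>
            ha ((Finset.mem_powersetCard.1 (Finset.mem_filter.1 hT').1).1 h)
          have h3 : (insert a T).erase a = (insert a T').erase a := by
            rw [h]
          rwa [Finset.erase_insert h1, Finset.erase_insert h2] at h3
      · apply Finset.disjoint_filter_filter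
        rw [Finset.disjoint_left]
        intro T hT hT'
        obtain ⟨T0, -, rfl⟩ := Finset.mem_image.1 hT'
        exact ha ((Finset.mem_powersetCard.1 hT).1 (Finset.mem_insert_self a T0))

/-- all constraints in one number -/
def u (e : Fin 22) : ℕ := ∑ i : Fin 11, 16 ^ (i : ℕ) * (1 + cP i e - cN i e)

/-- the number with all digits one in base 16 -/
def R : ℕ := ∑ i : Fin 11, 16 ^ (i : ℕ)

/-- the list of the values of `u` -/
def ul : List ℕ := (List.finRange 22).map u

theorem ul_eq : ul = ul.map id := by simp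

theorem cnt1 : cnt ul 1 (1 * R) = 0 := by decide +kernel
theorem cnt2 : cnt ul 2 (2 * R) = 0 := by decide +kernel
theorem cnt3 : cnt ul 3 (3 * R) = 0 := by decide +kernel
theorem cnt4 : cnt ul 4 (4 * R) = 11 := by decide +kernel

theorem cN_le (i : Fin 11) (e : Fin 22) : cN i e ≤ 1 := by
  unfold cN
  split_ifs <;> norm_num

theorem sum_u (T : Finset (Fin 22)) (h : ∀ i : Fin 11, ∑ e ∈ T, cP i e = ∑ e ∈ T, cN i e) :
    ∑ e ∈ T, u e = T.card * R := by
  have h1 : ∀ e, u e + ∑ i : Fin 11, 16 ^ (i : ℕ) * cN i e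
      = R + ∑ i : Fin 11, 16 ^ (i : ℕ) * cP i e := by
    intro e
    unfold u R
    rw [← Finset.sum_add_distrib, ← Finset.sum_add_distrib]
    refine Finset.sum_congr rfl fun i _ => ?_
    have := cN_le i e
    rw [← mul_add]
    have h2 : 1 + cP i e - cN i e + cN i e = 1 + cP i e := by omega
    rw [h2]
    ring
  have h2 : ∑ e ∈ T, u e + ∑ e ∈ T, ∑ i : Fin 11, 16 ^ (i : ℕ) * cN i e
      = ∑ e ∈ T, R + ∑ e ∈ T, ∑ i : Fin 11, 16 ^ (i : ℕ) * cP i e := by
    rw [← Finset.sum_add_distrib, ← Finset.sum_add_distrib]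
    exact Finset.sum_congr rfl fun e _ => h1 e
  have h3 : ∑ e ∈ T, ∑ i : Fin 11, 16 ^ (i : ℕ) * cN i e
      = ∑ e ∈ T, ∑ i : Fin 11, 16 ^ (i : ℕ) * cP i e := by
    rw [Finset.sum_comm, Finset.sum_comm (s := T)]
    refine Finset.sum_congr rfl fun i _ => ?_
    rw [← Finset.mul_sum, ← Finset.mul_sum, h i]
  rw [h3] at h2
  have h4 := Nat.add_right_cancel h2
  rw [h4, Finset.sum_const, smul_eq_mul]

theorem card_F (k : ℕ) :
    (((Finset.univ : Finset (Fin 22)).powersetCard k).filter
      fun T => ∑ e ∈ T, u e = k * R).card = cnt ul k (k * R) := by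
  have h := cnt_eq u (List.finRange 22) (List.nodup_finRange 22) k (k * R)
  have h2 : (List.finRange 22).toFinset = Finset.univ := by
    ext e
    simp
  rw [h2] at h
  exact h

theorem star_card : ∀ v, (star v).card = 4 := by decide +kernel

theorem star_injective : Function.Injective star := by
  intro v w h
  apply star_inj
  intro e he
  rw [← mem_star] at he ⊢
  rwa [← h]

theorem four (T : Finset (Fin 22)) (hT : T.card = 4) (h : ∑ e ∈ T, u e = 4 * R) :
    ∃ v, T = star v := by
  have hsub : Finset.univ.image star ⊆ ((Finset.univ : Finset (Fin 22)).powersetCard 4).filter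
      fun T => ∑ e ∈ T, u e = 4 * R := by
    intro S hS
    obtain ⟨v, -, rfl⟩ := Finset.mem_image.1 hS
    rw [Finset.mem_filter]
    refine ⟨Finset.mem_powersetCard.2 ⟨Finset.subset_univ _, star_card v⟩, ?_⟩
    rw [sum_u (star v) (fun i => c_star i v), star_card]
  have hcard : (Finset.univ.image star).card = 11 := by
    rw [Finset.card_image_of_injective _ star_injective]
    simp
  have heq := Finset.eq_of_subset_of_card_le hsub (by rw [card_F 4, cnt4, hcard])
  have hm : T ∈ Finset.univ.image star := by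
    rw [heq, Finset.mem_filter]
    exact ⟨Finset.mem_powersetCard.2 ⟨Finset.subset_univ _, hT⟩, h⟩
  obtain ⟨v, -, hv⟩ := Finset.mem_image.1 hm
  exact ⟨v, hv.symm⟩

theorem none_of {k : ℕ} (hk : cnt ul k (k * R) = 0) (T : Finset (Fin 22)) (hT : T.card = k)
    (h : ∑ e ∈ T, u e = k * R) : False := by
  have h1 := card_F k
  rw [hk, Finset.card_eq_zero, Finset.filter_eq_empty_iff] at h1
  exact h1 (Finset.mem_powersetCard.2 ⟨Finset.subset_univ _, hT⟩) h

theorem small (T : Finset (Fin 22)) (h0 : 0 < T.card) (h4 : T.card ≤ 4)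
    (h : ∀ i : Fin 11, ∑ e ∈ T, cP i e = ∑ e ∈ T, cN i e) : ∃ v, T = star v := by
  have hu := sum_u T h
  rcases (show T.card = 1 ∨ T.card = 2 ∨ T.card = 3 ∨ T.card = 4 by omega) with hc | hc | hc | hc
  · exact (none_of cnt1 T hc (by rw [hu, hc])).elim
  · exact (none_of cnt2 T hc (by rw [hu, hc])).elim
  · exact (none_of cnt3 T hc (by rw [hu, hc])).elim
  · exact four T hc (by rw [hu, hc])

theorem u_le : ∀ e, u e ≤ 2 * R := by decide +kernel

/-- weights, up to a factor -/
def w (e : Fin 22) : ℕ := 10 * R + u e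

theorem R_pos : 0 < R := by decide +kernel

theorem sum_w (T : Finset (Fin 22)) : ∑ e ∈ T, w e = T.card * (10 * R) + ∑ e ∈ T, u e := by
  unfold w
  rw [Finset.sum_add_distrib, Finset.sum_const, smul_eq_mul]

theorem w_star (v : Fin 11) : ∑ e ∈ star v, w e = 44 * R := by
  rw [sum_w, sum_u (star v) (fun i => c_star i v), star_card]
  ring

theorem w_four (T : Finset (Fin 22)) (h : ∑ e ∈ T, w e = 44 * R) : ∃ v, T = star v := by
  rw [sum_w] at h
  have h1 : ∑ e ∈ T, u e ≤ T.card * (2 * R) := by
    rw [← smul_eq_mul]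
    exact Finset.sum_le_card_nsmul T _ _ (fun e _ => u_le e)
  have hR := R_pos
  have hc : T.card = 4 := by
    rcases lt_trichotomy T.card 4 with hlt | heq | hgt
    · exfalso
      have h2 : T.card * (10 * R) ≤ 3 * (10 * R) := Nat.mul_le_mul_right _ (by omega)
      have h3 : T.card * (2 * R) ≤ 3 * (2 * R) := Nat.mul_le_mul_right _ (by omega)
      omega
    · exact heq
    · exfalso
      have h2 : 5 * (10 * R) ≤ T.card * (10 * R) := Nat.mul_le_mul_right _ (by omega)
      omega
  refine four T hc ?_
  rw [hc] at h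
  omega

theorem equistable : Equistable G := by
  have hR : (0 : ℝ) < 44 * R := by
    have : (0 : ℝ) < R := by exact_mod_cast R_pos
    linarith
  refine ⟨fun e => (w e : ℝ) / (44 * R), fun e => by positivity, fun S => ?_⟩
  rw [maximal_iff', ← Finset.sum_div, div_eq_one_iff_eq hR.ne']
  have key : (∑ e ∈ S, (w e : ℝ) = 44 * R) ↔ ∑ e ∈ S, w e = 44 * R := by
    rw [← Nat.cast_sum]
    exact_mod_cast Iff.rfl
  rw [key]
  constructor
  · rintro ⟨v, rfl⟩
    exact w_star v
  · exact w_four S

theorem stronglyEquistable : StronglyEquistable G := by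
  intro T hT hmax c hc
  by_contra hcon
  push Not at hcon
  have h0 := hcon (fun _ => (1 / 4 : ℝ)) (fun _ => by norm_num) (by
    intro S hS
    obtain ⟨v, rfl⟩ := (maximal_iff' S).1 hS
    rw [Finset.sum_const, star_card]
    norm_num)
  rw [Finset.sum_const, nsmul_eq_mul] at h0
  have hcard : (T.card : ℝ) ≤ 4 := by linarith
  have hcard' : T.card ≤ 4 := by exact_mod_cast hcard
  have hpos : 0 < T.card := hT.card_pos
  have hi : ∀ i : Fin 11, ∑ e ∈ T, cP i e = ∑ e ∈ T, cN i e := by
    intro i
    have h1 := hcon (fun e => (1 / 4 : ℝ) + 1 / 4 * ((cP i e : ℝ) - (cN i e : ℝ))) (by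
      intro e
      have h2 : (0 : ℝ) ≤ (cP i e : ℝ) := by positivity
      have h3 : (cN i e : ℝ) ≤ 1 := by
        unfold cN
        split_ifs <;> norm_num
      linarith) (by
      intro S hS
      obtain ⟨v, rfl⟩ := (maximal_iff' S).1 hS
      rw [Finset.sum_add_distrib, Finset.sum_const, star_card, ← Finset.mul_sum,
        Finset.sum_sub_distrib, ← Nat.cast_sum, ← Nat.cast_sum, c_star i v]
      norm_num)
    rw [Finset.sum_add_distrib, Finset.sum_const, nsmul_eq_mul, h0, ← Finset.mul_sum,
      Finset.sum_sub_distrib, ← Nat.cast_sum, ← Nat.cast_sum] at h1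
    have h4 : ((∑ e ∈ T, cP i e : ℕ) : ℝ) = ((∑ e ∈ T, cN i e : ℕ) : ℝ) := by linarith
    exact_mod_cast h4
  obtain ⟨v, hv⟩ := small T hpos hcard' hi
  exact hmax ((maximal_iff' T).2 ⟨v, hv⟩)

/-- the two ends of an edge -/
def ends (e : Fin 22) : Finset (Fin 11) := {p e, q e}

theorem ends_card : ∀ e, (ends e).card = 2 := by decide +kernel

theorem exists_adj : ∃ e f, G.Adj e f := by
  refine ⟨0, 2, ?_⟩
  show ¬ ∃ v, inc 0 v ∧ inc 2 v
  decide +kernel

theorem not_weaklyCIS : ¬ WeaklyCIS G := by
  rintro ⟨𝒞, 𝒮, hC, hCe, hS, hSe, hX⟩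
  have hst : ∀ v, (star v : Set (Fin 22)) ∈ 𝒮 := by
    intro v
    obtain ⟨e, f, hef, he, hf⟩ := star_two v
    obtain ⟨S, hSm, heS, hfS⟩ := hSe e f hef (fun h => h ⟨v, he, hf⟩)
    obtain ⟨u, rfl⟩ := (maximal_iff S).1 (hS S hSm)
    have hu : u = v := one_common e f hef u v ((mem_star e u).1 heS) ((mem_star f u).1 hfS) he hf
    rw [← hu]
    exact hSm
  obtain ⟨e0, f0, hadj⟩ := exists_adj
  obtain ⟨C, hCm, -, -⟩ := hCe e0 f0 hadj
  have hclique := (hC C hCm).1
  classical
  set D : Finset (Fin 22) := C.toFinite.toFinset with hD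
  have hDm : ∀ e, e ∈ D ↔ e ∈ C := fun e => by
    rw [hD]
    exact Set.Finite.mem_toFinset _
  have hdisj : ∀ e ∈ D, ∀ f ∈ D, e ≠ f → Disjoint (ends e) (ends f) := by
    intro e he f hf hef
    rw [Finset.disjoint_left]
    intro v hv1 hv2
    have := hclique ((hDm e).1 he) ((hDm f).1 hf) hef
    apply this
    refine ⟨v, ?_, ?_⟩
    · simp only [ends, Finset.mem_insert, Finset.mem_singleton] at hv1
      rcases hv1 with h | h
      · exact Or.inl h.symm
      · exact Or.inr h.symm
    · simp only [ends, Finset.mem_insert, Finset.mem_singleton] at hv2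
      rcases hv2 with h | h
      · exact Or.inl h.symm
      · exact Or.inr h.symm
  have hcov : D.biUnion ends = Finset.univ := by
    ext v
    simp only [Finset.mem_biUnion, Finset.mem_univ, iff_true]
    obtain ⟨e, heC, hes⟩ := hX C hCm _ (hst v)
    refine ⟨e, (hDm e).2 heC, ?_⟩
    have : inc e v := (mem_star e v).1 hes
    simp only [ends, Finset.mem_insert, Finset.mem_singleton]
    rcases this with h | h
    · exact Or.inl h.symm
    · exact Or.inr h.symm
  have hcount := Finset.card_biUnion hdisj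
  rw [hcov, Finset.sum_congr rfl (fun e _ => ends_card e)] at hcount
  simp at hcount
  omega

end Pool.Agent.W121.Equi
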